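import Pool.Agent.K1H54.NU.Stm2
import Pool.Agent.K1H30.OP2.Sub2

/-! The solution before the blow-up time, in terms of the total system (`S_EXA`, `S_EXB`). -/

open Topology MeasureTheory
open Set hiding ext
open Filter hiding ker

set_option autoImplicit false

namespace Pool.Agent.K1H60.NU

open Pool.Agent.Y5 Pool.Agent.Y5.D Pool.Agent.Y5.E Pool.Agent.K1H54.LO Pool.Agent.K1H54.L2
  Pool.Agent.K1H30.OP2 Pool.Agent.K1H54.NU
open Pool.Agent.K1H21.LO (bl_ker bb)

section

variable {I : Type} {sh : I → ℕ} {ty : I → Bool} {ρ : ℕ → ℕ} {n₀ : ℕ}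

/-- the amplitudes of the subsystem -/
theorem am_sub (z : Sub sh n₀ → ℝ) (w : I → ℝ) (h1 : ∀ i : Sub sh n₀, w i = z i)
    (h2 : ∀ i, ¬ n₀ ≤ sh i → w i = 0) (b : Bool) (n : ℕ) :
    am (fun i : Sub sh n₀ => sh i - n₀) (fun i => ty i) (fun n => ρ (n₀ + n)) b n z =
      am sh ty ρ b (n₀ + n) w := by
  unfold am
  have h3 : (fun i : Sub sh n₀ => fv (fun i : Sub sh n₀ => sh i - n₀) (fun i => ty i)
      (fun n => ρ (n₀ + n)) b n i * z i) =
      fun i : Sub sh n₀ => fv sh ty ρ b (n₀ + n) i * w i := by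
    funext i
    rw [h1]
    congr 1
    unfold fv
    have h0 := i.2
    by_cases h1 : sh i = n₀ + n ∧ ty i = b
    · rw [if_pos h1, if_pos ⟨by show sh i - n₀ = n; omega, h1.2⟩]
    · rw [if_neg h1, if_neg]
      rintro ⟨h2, h3⟩
      have h2' : sh i - n₀ = n := h2
      exact h1 ⟨by omega, h3⟩
  rw [h3]
  refine Function.Injective.tsum_eq (g := (Subtype.val : Sub sh n₀ → I))
    (f := fun i => fv sh ty ρ b (n₀ + n) i * w i) Subtype.val_injective ?_
  intro i hi
  by_cases h4 : n₀ ≤ sh i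
  · exact ⟨⟨i, h4⟩, rfl⟩
  · exact absurd (by show fv sh ty ρ b (n₀ + n) i * w i = 0; rw [h2 i h4, mul_zero]) hi

theorem am_low (w : I → ℝ) (h2 : ∀ i, ¬ n₀ ≤ sh i → w i = 0) (b : Bool) (n : ℕ) (hn : n < n₀) :
    am sh ty ρ b n w = 0 := by
  unfold am
  refine (tsum_congr fun i => ?_).trans tsum_zero
  by_cases hi : n₀ ≤ sh i
  · unfold fv
    rw [if_neg, zero_mul]
    rintro ⟨h2, _⟩
    omega
  · rw [h2 i hi, mul_zero]

theorem am_zero (b : Bool) (n : ℕ) : am sh ty ρ b n (fun _ => (0 : ℝ)) = 0 := by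
  unfold am
  simp

end

section

variable {G : GS} {n₀ : ℕ}

theorem ext_pos (z : Sub G.sh n₀ → ℝ) (i : G.I) (h : n₀ ≤ G.sh i) :
    ext (G := G) n₀ z (Sum.inl i) = z ⟨i, h⟩ := by
  simp only [ext, dif_pos h]

theorem ext_neg (z : Sub G.sh n₀ → ℝ) (i : G.I) (h : ¬ n₀ ≤ G.sh i) :
    ext (G := G) n₀ z (Sum.inl i) = 0 := by
  simp only [ext, dif_neg h]

theorem Y_eq (z : Sub G.sh n₀ → ℝ) (n : ℕ) : G.Y (n₀ + n) (ext n₀ z) =
    am (fun i : Sub G.sh n₀ => G.sh i - n₀) (fun i => G.ty i) (fun n => G.ρ (n₀ + n)) true n z :=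
  (am_sub (ρ := G.ρ) (ty := G.ty) z (fun i => ext n₀ z (Sum.inl i)) (fun i => ext_pos z i i.2)
    (fun i hi => ext_neg z i hi) true n).symm

theorem Z_eq (z : Sub G.sh n₀ → ℝ) (n : ℕ) : G.Z (n₀ + n) (ext n₀ z) =
    am (fun i : Sub G.sh n₀ => G.sh i - n₀) (fun i => G.ty i) (fun n => G.ρ (n₀ + n)) false n z :=
  (am_sub (ρ := G.ρ) (ty := G.ty) z (fun i => ext n₀ z (Sum.inl i)) (fun i => ext_pos z i i.2)
    (fun i hi => ext_neg z i hi) false n).symm

theorem Y_low (z : Sub G.sh n₀ → ℝ) (n : ℕ) (hn : n < n₀) : G.Y n (ext n₀ z) = 0 :=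
  am_low (ρ := G.ρ) (ty := G.ty) (fun i => ext n₀ z (Sum.inl i))
    (fun i hi => ext_neg z i hi) true n hn

theorem Z_low (z : Sub G.sh n₀ → ℝ) (n : ℕ) (hn : n < n₀) : G.Z n (ext n₀ z) = 0 :=
  am_low (ρ := G.ρ) (ty := G.ty) (fun i => ext n₀ z (Sum.inl i))
    (fun i hi => ext_neg z i hi) false n hn

theorem P_zero (z : Sub G.sh n₀ → ℝ) (n : ℕ) : G.P n (ext n₀ z) = 0 :=
  am_zero (sh := G.sh') (ρ := G.ρ') (ty := G.ty') true n

theorem shlG (G : GS) : Shl G.sh G.ty G.ρ := ⟨G.fin, G.card, G.pos⟩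

end

theorem t_EXA : S_EXA := by
  intro G lam c₀ n₀ T z hlam hc₀ hc hT hs i t ht
  rcases i with i | j
  · by_cases hi : n₀ ≤ G.sh i
    · have e1 : (fun τ => ext (G := G) n₀ (fun a => z a τ) (Sum.inl i)) = z ⟨i, hi⟩ := by
        funext τ
        exact ext_pos _ i hi
      rw [e1, ext_pos _ i hi]
      have h1 := hs.deriv ⟨i, hi⟩ t ht
      refine h1.congr_deriv ?_
      rw [bl_ker (shl_sub (shlG G))]
      change -(G.d i * z ⟨i, hi⟩ t) + _ = -(G.d i * z ⟨i, hi⟩ t) + _
      congr 1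
      obtain ⟨n, hn⟩ : ∃ n, G.sh i = n₀ + n := ⟨G.sh i - n₀, by omega⟩
      have hn' : G.sh i - n₀ = n := by omega
      simp only [GS.vf]
      rw [hn']
      unfold bb
      by_cases hty : G.ty i = true
      · rw [if_pos hty, if_pos hty, hn, Z_eq, Y_eq]
        congr 1
        have h3 : (if n₀ + n = 0 then 0 else G.c (n₀ + n - 1) *
            G.Z (n₀ + n - 1) (ext (G := G) n₀ fun a => z a t) ^ 2) =
            if n = 0 then 0 else c₀ * lam ^ n₀ * lam ^ (n - 1) *
              (am (fun i : Sub G.sh n₀ => G.sh i - n₀) (fun i => G.ty i)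
                (fun n => G.ρ (n₀ + n)) false (n - 1) (fun a => z a t) *
              am (fun i : Sub G.sh n₀ => G.sh i - n₀) (fun i => G.ty i)
                (fun n => G.ρ (n₀ + n)) false (n - 1) (fun a => z a t)) := by
          rcases Nat.eq_zero_or_pos n with h0 | h0
          · rw [if_pos h0, h0, add_zero]
            by_cases h4 : n₀ = 0
            · rw [if_pos h4]
            · rw [if_neg h4, Z_low _ _ (by omega)]
              ring
          · rw [if_neg (by omega), if_neg (by omega), show n₀ + n - 1 = n₀ + (n - 1) by omega,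
              Z_eq, hc, pow_add]
            ring
        rw [h3, hc, pow_add]
        ring
      · rw [if_neg hty, if_neg hty, hn, Z_eq, Y_eq, hc, P_zero,
          show n₀ + n + 1 = n₀ + (n + 1) by omega, Y_eq, pow_add]
        congr 1
        ring
    · have e1 : (fun τ => ext (G := G) n₀ (fun a => z a τ) (Sum.inl i)) = fun _ => 0 := by
        funext τ
        exact ext_neg _ i hi
      rw [e1, ext_neg _ i hi]
      refine (hasDerivWithinAt_const t (Ico 0 T) (0 : ℝ)).congr_deriv ?_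
      simp only [GS.vf]
      rw [Z_low (fun a => z a t) (G.sh i) (by omega), Z_low (fun a => z a t) (G.sh i - 1) (by omega),
        Y_low (fun a => z a t) (G.sh i) (by omega), P_zero]
      simp
  · have e1 : (fun τ => ext (G := G) n₀ (fun a => z a τ) (Sum.inr j)) = fun _ => 0 := by
      funext τ
      rfl
    rw [e1]
    refine (hasDerivWithinAt_const t (Ico 0 T) (0 : ℝ)).congr_deriv ?_
    simp only [GS.vf, P_zero, ext]
    simp

/-- synthesis for the total system -/
theorem Sy_ext {G : GS} {n₀ : ℕ} (g : G.I → Fam) (g' : G.J → Fam) (z : Sub G.sh n₀ → ℝ) :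
    Sy (Sum.elim g g') (ext (G := G) n₀ z) = Sy (fun i : Sub G.sh n₀ => g i) z := by
  symm
  funext k
  unfold Sy
  have h3 : (fun i : Sub G.sh n₀ => z i • g i k) = fun i : Sub G.sh n₀ =>
      ext (G := G) n₀ z (Sum.inl (i : G.I)) • Sum.elim g g' (Sum.inl (i : G.I)) k := by
    funext i
    rw [ext_pos z i i.2]
    rfl
  rw [h3]
  refine Function.Injective.tsum_eq (g := fun i : Sub G.sh n₀ => (Sum.inl (i : G.I) : G.I ⊕ G.J))
    (f := fun i => ext (G := G) n₀ z i • Sum.elim g g' i k)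
    (fun a b hab => Subtype.ext (Sum.inl_injective hab)) ?_
  intro i hi
  rcases i with i | j
  · by_cases h4 : n₀ ≤ G.sh i
    · exact ⟨⟨i, h4⟩, rfl⟩
    · exact absurd (by
        show ext (G := G) n₀ z (Sum.inl i) • Sum.elim g g' (Sum.inl i) k = 0
        rw [ext_neg z i h4, zero_smul]) hi
  · exact absurd (by
      show ext (G := G) n₀ z (Sum.inr j) • Sum.elim g g' (Sum.inr j) k = 0
      rw [show ext (G := G) n₀ z (Sum.inr j) = 0 from rfl, zero_smul]) hi

/-- the union of two systems of modes -/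
theorem md_sum {I J : Type} {g : I → Fam} {S : I → Finset Z3} {R : I → ℝ} {g' : J → Fam}
    {S' : J → Finset Z3} {R' : J → ℝ} (h : Md g S R) (h' : Md g' S' R')
    (hd : ∀ i j, Disjoint (S i) (S' j)) :
    Md (Sum.elim g g') (Sum.elim S S') (Sum.elim R R') where
  ot i := by
    rcases i with i | j
    · exact h.ot i
    · exact h'.ot j
  supp i := by
    rcases i with i | j
    · exact h.supp i
    · exact h'.supp j
  flat i := by
    rcases i with i | j
    · exact h.flat i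
    · exact h'.flat j
  disj i j hij := by
    rcases i with i | i <;> rcases j with j | j
    · exact h.disj i j fun hc => hij (by rw [hc])
    · exact hd i j
    · exact (hd j i).symm
    · exact h'.disj i j fun hc => hij (by rw [hc])
  ne i := by
    rcases i with i | j
    · exact h.ne i
    · exact h'.ne j
  sph i := by
    rcases i with i | j
    · exact h.sph i
    · exact h'.sph j

theorem pair_disj {I J : Type} {g : I → Fam} {S : I → Finset Z3} {R : I → ℝ} {g' : J → Fam}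
    {S' : J → Finset Z3} {R' : J → ℝ} (h : Md g S R) (h' : Md g' S' R')
    (hd : ∀ i j, Disjoint (S i) (S' j)) (w : I → ℝ) (u : J → ℝ) :
    pair (Sy g w) (Sy g' u) = 0 := by
  unfold pair
  refine (tsum_congr fun k => ?_).trans tsum_zero
  by_cases hk : ∃ i, k ∈ S i
  · obtain ⟨i, hi⟩ := hk
    rw [h'.Sy_not u (fun j hj => Finset.disjoint_left.1 (hd i j) hi hj), inner_zero_right]
  · push Not at hk
    rw [h.Sy_not w hk, inner_zero_left]

theorem t_EXB : S_EXB := by
  classical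
  intro G g S R N g' S' R' N' s N₁ δ c₀ lam X D n₀ T z hδ hN₁ hε hMM hD hDS hT hs hr
  have hM := hMM.m1
  have h := md_of hM
  have h2 := md_of hMM.m2
  have hsub := ms_sub (n₀ := n₀) hM
  have h' := md_of hsub
  have hmain := t_EX2 _ _ _ _ _ _ _ _ s N₁ δ (c₀ * lam ^ n₀) lam G.ε hδ hN₁ G.ε0 hε hsub D
    (fun i : Sub G.sh n₀ => G.d i) hD (fun i k hk => hDS i k hk) T z hT hs hr
  have hV : (fun t => Sy (Sum.elim g g') (ext (G := G) n₀ fun a => z a t)) =
      fun t => Sy (fun i : Sub G.sh n₀ => g i) (fun i => z i t) := by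
    funext t
    exact Sy_ext g g' _
  rw [hV]
  refine ⟨hmain.ot, hmain.rap, ?_⟩
  intro Z hZ hZf t ht
  refine (hmain.eqn Z hZ hZf t ht).congr_deriv ?_
  congr 1
  -- the trilinear forms agree
  set zt : Sub G.sh n₀ → ℝ := fun i => z i t with hzt
  set w : G.I → ℝ := fun i => ext (G := G) n₀ zt (Sum.inl i) with hw
  have hwz : Sy (fun i : Sub G.sh n₀ => g i) zt = Sy g w :=
    Sy_sub zt w (fun i => ext_pos zt i i.2) (fun i hi => ext_neg zt i hi)
  have hrap : Rap (Sy (fun i : Sub G.sh n₀ => g i) zt) := by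
    intro m
    obtain ⟨M, hM'⟩ := hmain.rap m t ht.2
    exact ⟨M, fun k => hM' t ⟨ht.1, le_rfl⟩ k⟩
  have e1 := (t_SUB G.I G.sh G.ty G.ρ g S R N s N₁ δ c₀ lam G.ε n₀ hN₁ hM).2 zt Z hrap hZ hZf
  rw [← e1]
  unfold bQ bN
  have e2 : bg (Sum.elim g g') (Sy (fun i : Sub G.sh n₀ => g i) zt)
      (Sy (fun i : Sub G.sh n₀ => g i) zt) Z =
      bg g (Sy (fun i : Sub G.sh n₀ => g i) zt) (Sy (fun i : Sub G.sh n₀ => g i) zt) Z := by
    conv_rhs => rw [hwz]
    rw [← Sy_ext g g' zt, (md_sum h h2 hMM.dis).bg_Sy, h.bg_Sy, Sy_ext, hwz]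
  have e3 : bR G.r (fun n => Sy g (fv G.sh G.ty G.ρ false n))
      (fun n => Sy g' (fv G.sh' G.ty' G.ρ' true n)) (Sy (fun i : Sub G.sh n₀ => g i) zt)
      (Sy (fun i : Sub G.sh n₀ => g i) zt) Z = 0 := by
    unfold bR
    refine (tsum_congr fun n => ?_).trans tsum_zero
    rw [hwz, pair_disj h h2 hMM.dis, pair_disj h h2 hMM.dis]
    ring
  rw [e2, e3, add_zero]

end Pool.Agent.K1H60.NU
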